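import Pool.Agent.Helper67.NO.St1

/-! Project NO (MP_26be5b_ag), module BDA: algebra of the block diagonal matrices `bd`. -/

set_option autoImplicit false

namespace Pool.Agent.Helper98.NO

open Pool.Agent.Helper67.NO
open Matrix
open scoped Matrix.Norms.Frobenius ContDiff Topology

section

variable {ι κ : Type} [Fintype ι] [DecidableEq ι] [Fintype κ] [DecidableEq κ]

private lemma bd_mul (x x' : Matrix ι ι ℂ) (y y' : Matrix κ κ ℂ) :
    bd x y * bd x' y' = bd (x * x') (y * y') := by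
  unfold bd
  rw [fromBlocks_multiply]
  simp

private lemma bd_add (x x' : Matrix ι ι ℂ) (y y' : Matrix κ κ ℂ) :
    bd x y + bd x' y' = bd (x + x') (y + y') := by
  unfold bd
  rw [fromBlocks_add]
  simp

private lemma bd_neg (x : Matrix ι ι ℂ) (y : Matrix κ κ ℂ) : - bd x y = bd (-x) (-y) := by
  unfold bd
  rw [fromBlocks_neg]
  simp

private lemma bd_sub (x x' : Matrix ι ι ℂ) (y y' : Matrix κ κ ℂ) :
    bd x y - bd x' y' = bd (x - x') (y - y') := by
  rw [sub_eq_add_neg, bd_neg, bd_add, ← sub_eq_add_neg, ← sub_eq_add_neg]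

private lemma bd_one : bd (1 : Matrix ι ι ℂ) (1 : Matrix κ κ ℂ) = 1 := by
  unfold bd
  exact fromBlocks_one

private lemma bd_zero : bd (0 : Matrix ι ι ℂ) (0 : Matrix κ κ ℂ) = 0 := by
  unfold bd
  exact fromBlocks_zero

/-- `bd` as a ring homomorphism -/
private noncomputable def bdHom (ι κ : Type) [Fintype ι] [DecidableEq ι] [Fintype κ]
    [DecidableEq κ] : Matrix ι ι ℂ × Matrix κ κ ℂ →+* Matrix (ι ⊕ κ) (ι ⊕ κ) ℂ where
  toFun p := bd p.1 p.2
  map_one' := bd_one
  map_mul' _ _ := (bd_mul _ _ _ _).symm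
  map_zero' := bd_zero
  map_add' _ _ := (bd_add _ _ _ _).symm

private lemma bdHom_cont : Continuous (bdHom ι κ) := by
  have h : Continuous (fun p : Matrix ι ι ℂ × Matrix κ κ ℂ => bd p.1 p.2) := by
    refine continuous_matrix fun i j => ?_
    rcases i with i | i <;> rcases j with j | j
    · exact (continuous_fst.matrix_elem i j)
    · exact continuous_const
    · exact continuous_const
    · exact (continuous_snd.matrix_elem i j)
  exact h

private lemma bd_exp (x : Matrix ι ι ℂ) (y : Matrix κ κ ℂ) :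
    NormedSpace.exp (bd x y) = bd (NormedSpace.exp x) (NormedSpace.exp y) := by
  have h := NormedSpace.map_exp (bdHom ι κ) bdHom_cont (x, y)
  refine h.symm.trans ?_
  exact congrArg₂ bd (Prod.fst_exp (x, y)) (Prod.snd_exp (x, y))

end

theorem pBDA : StBDA := by
  intro ι κ _ _ _ _
  refine ⟨?_, ?_, ?_, bd_one, bd_zero, ?_, ?_⟩
  · intro x x' y y'
    refine ⟨bd_mul _ _ _ _, bd_add _ _ _ _, bd_sub _ _ _ _, ?_⟩
    unfold br
    rw [bd_mul, bd_mul, bd_sub]
  · intro x y
    refine ⟨?_, bd_neg _ _, ?_, bd_exp x y⟩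
    · unfold bd
      rw [fromBlocks_conjTranspose]
      simp
    · unfold bd
      simp [trace, Fintype.sum_sum_type]
  · intro c x y
    unfold bd
    rw [fromBlocks_smul]
    simp
  · intro x x' y y' h
    unfold bd at h
    rw [fromBlocks_inj] at h
    exact ⟨h.1, h.2.2.2⟩
  · intro x y hx hy
    have h1 : IsUnit x.det := (Matrix.isUnit_iff_isUnit_det x).1 hx
    have h2 : IsUnit y.det := (Matrix.isUnit_iff_isUnit_det y).1 hy
    have h3 : bd x y * bd x⁻¹ y⁻¹ = 1 := by
      rw [bd_mul, Matrix.mul_nonsing_inv x h1, Matrix.mul_nonsing_inv y h2, bd_one]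
    refine ⟨?_, Matrix.inv_eq_right_inv h3⟩
    unfold bd
    rw [isUnit_fromBlocks_zero₂₁]
    exact ⟨hx, hy⟩

end Pool.Agent.Helper98.NO
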